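import Mathlib

/-!
# Control functionals for vector capacities in Banach lattices with order continuous norm
-/

namespace Pool.Agent.Results.MP_e24518_an.ControlFunctional

open Filter Topology

/-- Order continuity of the norm: every monotone, order bounded sequence converges in norm. -/
def OrderContinuousNorm (E : Type*) [NormedAddCommGroup E] [Lattice E] : Prop :=
  ∀ f : ℕ → E, (Monotone f ∨ Antitone f) → (∃ a b, ∀ n, a ≤ f n ∧ f n ≤ b) →
    ∃ l, Tendsto f atTop (𝓝 l)

/-- A vector capacity on the `σ`-algebra of `X` with values in `E₊`. -/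
structure IsVectorCapacity {X E : Type*} [MeasurableSpace X] [NormedAddCommGroup E] [Lattice E]
    (μ : Set X → E) : Prop where
  nonneg : ∀ A, MeasurableSet A → 0 ≤ μ A
  empty : μ ∅ = 0
  mono : ∀ A B, MeasurableSet A → MeasurableSet B → A ⊆ B → μ A ≤ μ B

/-- A real capacity on the `σ`-algebra of `X`. -/
structure IsCapacity {X : Type*} [MeasurableSpace X] (l : Set X → ℝ) : Prop where
  nonneg : ∀ A, MeasurableSet A → 0 ≤ l A
  empty : l ∅ = 0
  mono : ∀ A B, MeasurableSet A → MeasurableSet B → A ⊆ B → l A ≤ l B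

/-- Absolute continuity `μ ≪ l`. -/
def AbsCont {X E : Type*} [MeasurableSpace X] [NormedAddCommGroup E]
    (μ : Set X → E) (l : Set X → ℝ) : Prop :=
  ∀ ε > 0, ∃ δ > 0, ∀ A, MeasurableSet A → l A < δ → ‖μ A‖ < ε

section

variable {E : Type*} [NormedAddCommGroup E] [NormedSpace ℝ E] [Lattice E] [HasSolidNorm E]
  [IsOrderedAddMonoid E] [IsOrderedModule ℝ E]

lemma norm_mono {x y : E} (hx : 0 ≤ x) (hxy : x ≤ y) : ‖x‖ ≤ ‖y‖ := by
  apply norm_le_norm_of_abs_le_abs
  rw [abs_of_nonneg hx, abs_of_nonneg (hx.trans hxy)]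
  exact hxy

lemma smul_sup_zero {c : ℝ} (hc : 0 < c) (x : E) : c • (x ⊔ 0) = (c • x) ⊔ 0 := by
  apply le_antisymm
  · have h1 : x ⊔ 0 ≤ c⁻¹ • ((c • x) ⊔ 0) := by
      apply sup_le
      · have h2 : c⁻¹ • (c • x) ≤ c⁻¹ • ((c • x) ⊔ 0) :=
          smul_le_smul_of_nonneg_left le_sup_left (by positivity)
        rwa [smul_smul, inv_mul_cancel₀ hc.ne', one_smul] at h2
      · exact smul_nonneg (by positivity) le_sup_right
    have h3 := smul_le_smul_of_nonneg_left h1 hc.le
    rwa [smul_smul, mul_inv_cancel₀ hc.ne', one_smul] at h3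
  · apply sup_le
    · exact smul_le_smul_of_nonneg_left le_sup_left hc.le
    · exact smul_nonneg hc.le le_sup_right

/-- Positive norming functionals. -/
lemma exists_norming (x : E) (hx : 0 ≤ x) :
    ∃ g : E →L[ℝ] ℝ, (∀ z, 0 ≤ z → 0 ≤ g z) ∧ (∀ z, |g z| ≤ ‖z‖) ∧ g x = ‖x‖ := by
  rcases eq_or_ne x 0 with rfl | hx0
  · exact ⟨0, by simp, by simp, by simp⟩
  let f : E →ₗ.[ℝ] ℝ := LinearPMap.mkSpanSingleton x ‖x‖ hx0
  obtain ⟨g, hg1, hg2⟩ := exists_extension_of_le_sublinear f (fun z => ‖z ⊔ 0‖)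
    (by
      intro c hc z
      rw [← smul_sup_zero hc, norm_smul, Real.norm_of_nonneg hc.le])
    (by
      intro a b
      calc ‖(a + b) ⊔ 0‖ ≤ ‖(a ⊔ 0) + (b ⊔ 0)‖ := by
            apply norm_mono le_sup_right
            apply sup_le
            · exact add_le_add le_sup_left le_sup_left
            · exact add_nonneg le_sup_right le_sup_right
        _ ≤ _ := norm_add_le _ _)
    (by
      rintro ⟨z, hz⟩
      obtain ⟨c, rfl⟩ := Submodule.mem_span_singleton.1 hz
      rw [show f ⟨c • x, hz⟩ = c • ‖x‖ from LinearPMap.mkSpanSingleton'_apply _ _ _ _ _]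
      rcases le_or_gt 0 c with hc | hc
      · have : (c • x) ⊔ 0 = c • x := sup_eq_left.2 (smul_nonneg hc hx)
        simp only [smul_eq_mul]
        rw [this, norm_smul, Real.norm_of_nonneg hc]
      · simp only [smul_eq_mul]
        have h1 : c * ‖x‖ ≤ 0 := mul_nonpos_of_nonpos_of_nonneg hc.le (norm_nonneg _)
        exact h1.trans (norm_nonneg _))
  have hpos : ∀ z, 0 ≤ z → 0 ≤ g z := by
    intro z hz
    have h1 := hg2 (-z)
    have h2 : (-z) ⊔ 0 = 0 := sup_eq_right.2 (neg_nonpos.2 hz)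
    simp only [h2, norm_zero, map_neg] at h1
    linarith
  have hup : ∀ z, g z ≤ ‖z‖ := by
    intro z
    apply (hg2 z).trans
    apply norm_le_norm_of_abs_le_abs
    rw [abs_of_nonneg (show (0 : E) ≤ z ⊔ 0 from le_sup_right)]
    exact sup_le (le_abs_self z) (abs_nonneg z)
  have habs : ∀ z, |g z| ≤ ‖z‖ := by
    intro z
    rw [abs_le]
    constructor
    · have := hup (-z)
      rw [map_neg, norm_neg] at this
      linarith
    · exact hup z
  refine ⟨g.mkContinuous 1 (fun z => by rw [one_mul]; exact habs z), hpos, habs, ?_⟩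
  have h := hg1 ⟨x, Submodule.mem_span_singleton_self x⟩
  have h2 : f ⟨x, Submodule.mem_span_singleton_self x⟩ = ‖x‖ := by
    exact LinearPMap.mkSpanSingleton_apply ℝ ℝ hx0 ‖x‖
  rw [h2] at h
  exact h

lemma partialSups_nonneg_le_sum (f : ℕ → E) (hf : ∀ n, 0 ≤ f n) (k : ℕ) :
    partialSups f k ≤ ∑ j ∈ Finset.range (k + 1), f j := by
  induction k with
  | zero => simp
  | succ k ih =>
    rw [partialSups_add_one, Finset.sum_range_succ _ (k + 1)]
    apply sup_le
    · exact ih.trans (le_add_of_nonneg_right (hf _))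
    · exact le_add_of_nonneg_left (Finset.sum_nonneg fun i _ => hf i)

/-- Key lemma: for `u ≥ 0` and `ε > 0` some positive functional controls the norm on `[0,u]`
up to `ε`. -/
lemma control_eps (hE : OrderContinuousNorm E) (u : E) (hu : 0 ≤ u) (ε : ℝ) (hε : 0 < ε) :
    ∃ g : E →L[ℝ] ℝ, (∀ z, 0 ≤ z → 0 ≤ g z) ∧ ∃ δ > 0, ∀ x, 0 ≤ x → x ≤ u → g x < δ →
      ‖x‖ < ε := by
  by_contra hcon
  push Not at hcon
  let P := {g : E →L[ℝ] ℝ // ∀ z, 0 ≤ z → 0 ≤ g z}
  have h1 : ∀ (g : P) (n : ℕ), ∃ x, 0 ≤ x ∧ x ≤ u ∧ g.1 x < (1 / 2 : ℝ) ^ n ∧ ε ≤ ‖x‖ := by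
    intro g n
    obtain ⟨x, hx0, hxu, hxg, hxe⟩ := hcon g.1 g.2 ((1 / 2 : ℝ) ^ n) (by positivity)
    exact ⟨x, hx0, hxu, hxg, hxe⟩
  choose X hX0 hXu hXg hXe using h1
  have h2 : ∀ (g : P) (n : ℕ), ∃ y : P, (∀ z, |y.1 z| ≤ ‖z‖) ∧ y.1 (X g n) = ‖X g n‖ := by
    intro g n
    obtain ⟨y, hy1, hy2, hy3⟩ := exists_norming (X g n) (hX0 g n)
    exact ⟨⟨y, hy1⟩, hy2, hy3⟩
  choose Y hYn hYx using h2
  let G : ℕ → P := fun n => Nat.rec (⟨0, by simp⟩ : P)
    (fun n g => (⟨g.1 + (Y g n).1, fun z hz => by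
      have := g.2 z hz
      have := (Y g n).2 z hz
      rw [add_apply]
      linarith⟩ : P)) n
  have hG : ∀ n, (G (n + 1)).1 = (G n).1 + (Y (G n) n).1 := fun n => rfl
  let x : ℕ → E := fun n => X (G n) n
  let y : ℕ → E →L[ℝ] ℝ := fun n => (Y (G n) n).1
  have hx0 : ∀ n, 0 ≤ x n := fun n => hX0 _ _
  have hxu : ∀ n, x n ≤ u := fun n => hXu _ _
  have hxe : ∀ n, ε ≤ ‖x n‖ := fun n => hXe _ _
  have hy0 : ∀ n z, 0 ≤ z → 0 ≤ y n z := fun n => (Y (G n) n).2
  have hyn : ∀ n z, |y n z| ≤ ‖z‖ := fun n => hYn _ _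
  have hyx : ∀ n, y n (x n) = ‖x n‖ := fun n => hYx _ _
  have hyG : ∀ k n, k < n → ∀ z, 0 ≤ z → y k z ≤ (G n).1 z := by
    intro k n hkn z hz
    induction n, hkn using Nat.le_induction with
    | base =>
      rw [hG, add_apply]
      have := (G k).2 z hz
      change y k z ≤ (G k).1 z + y k z
      linarith
    | succ n _ ih =>
      rw [hG, add_apply]
      have := hy0 n z hz
      change y k z ≤ (G n).1 z + y n z
      linarith
  have hsmall : ∀ k n, k < n → y k (x n) ≤ (1 / 2 : ℝ) ^ n := by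
    intro k n hkn
    exact (hyG k n hkn (x n) (hx0 n)).trans (hXg (G n) n).le
  -- the suprema of the tails
  have hv : ∀ n, ∃ v : E, Tendsto (fun k => partialSups (fun j => x (n + j)) k) atTop (𝓝 v) := by
    intro n
    apply hE
    · left
      exact (partialSups fun j => x (n + j)).monotone
    · refine ⟨0, u, fun k => ⟨?_, ?_⟩⟩
      · exact (hx0 (n + 0)).trans (le_partialSups_of_le (fun j => x (n + j)) (Nat.zero_le k))
      · exact partialSups_le _ _ _ fun i _ => hxu _
  choose v hv using hv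
  have hvx : ∀ n, x n ≤ v n := by
    intro n
    apply ge_of_tendsto' (hv n)
    intro k
    have := le_partialSups_of_le (fun j => x (n + j)) (Nat.zero_le k)
    simpa using this
  have hvu : ∀ n, v n ≤ u := by
    intro n
    apply le_of_tendsto' (hv n)
    intro k
    exact partialSups_le _ _ _ fun i _ => hxu _
  have hv0 : ∀ n, 0 ≤ v n := fun n => (hx0 n).trans (hvx n)
  have hanti : Antitone v := by
    apply antitone_nat_of_succ_le
    intro n
    apply le_of_tendsto' (hv (n + 1))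
    intro k
    apply partialSups_le
    intro i _
    have h3 : x (n + 1 + i) ≤ v n := by
      apply ge_of_tendsto (hv n)
      filter_upwards [eventually_ge_atTop (i + 1)] with m hm
      have := le_partialSups_of_le (fun j => x (n + j)) hm
      rwa [show n + (i + 1) = n + 1 + i by omega] at this
    exact h3
  obtain ⟨w, hw⟩ := hE v (Or.inr hanti) ⟨0, u, fun n => ⟨hv0 n, hvu n⟩⟩
  have hdiff : Tendsto (fun n => ‖v n - v (n + 1)‖) atTop (𝓝 0) := by
    have h3 := (hw.sub ((tendsto_add_atTop_iff_nat 1).2 hw)).norm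
    simpa using h3
  have hyv : ∀ n, y n (v (n + 1)) ≤ (1 / 2 : ℝ) ^ n := by
    intro n
    have hcont : Tendsto (fun k => y n (partialSups (fun j => x (n + 1 + j)) k)) atTop
        (𝓝 (y n (v (n + 1)))) := ((y n).continuous.tendsto _).comp (hv (n + 1))
    apply le_of_tendsto' hcont
    intro k
    have h3 := partialSups_nonneg_le_sum (fun j => x (n + 1 + j)) (fun j => hx0 _) k
    have h4 : y n (partialSups (fun j => x (n + 1 + j)) k) ≤
        y n (∑ j ∈ Finset.range (k + 1), x (n + 1 + j)) := by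
      have h5 := hy0 n _ (sub_nonneg.2 h3)
      rw [map_sub] at h5
      linarith
    rw [map_sum] at h4
    apply h4.trans
    calc ∑ j ∈ Finset.range (k + 1), y n (x (n + 1 + j))
        ≤ ∑ j ∈ Finset.range (k + 1), (1 / 2 : ℝ) ^ (n + 1) * (1 / 2) ^ j := by
          apply Finset.sum_le_sum
          intro j _
          rw [← pow_add]
          exact hsmall n _ (by omega)
      _ = (1 / 2 : ℝ) ^ (n + 1) * ∑ j ∈ Finset.range (k + 1), (1 / 2 : ℝ) ^ j := by
          rw [Finset.mul_sum]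
      _ ≤ (1 / 2 : ℝ) ^ (n + 1) * 2 := by
          apply mul_le_mul_of_nonneg_left _ (by positivity)
          rw [geom_sum_eq (by norm_num)]
          have : (0 : ℝ) < (1 / 2) ^ (k + 1) := by positivity
          rw [div_le_iff_of_neg (by norm_num)]
          linarith
      _ = (1 / 2 : ℝ) ^ n := by rw [pow_succ]; ring
  have hlow : ∀ n, ε - (1 / 2 : ℝ) ^ n ≤ ‖v n - v (n + 1)‖ := by
    intro n
    have h3 : ε ≤ y n (v n) := by
      have h4 := hy0 n _ (sub_nonneg.2 (hvx n))
      rw [map_sub, hyx] at h4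
      linarith [hxe n]
    have h5 := hyn n (v n - v (n + 1))
    rw [map_sub] at h5
    have h6 := le_abs_self (y n (v n) - y n (v (n + 1)))
    linarith [hyv n]
  have hpow : Tendsto (fun n : ℕ => ε - (1 / 2 : ℝ) ^ n) atTop (𝓝 (ε - 0)) :=
    tendsto_const_nhds.sub (tendsto_pow_atTop_nhds_zero_of_lt_one (by norm_num) (by norm_num))
  have := le_of_tendsto_of_tendsto' hpow hdiff hlow
  linarith

/-- For `u ≥ 0` some positive functional controls the norm on `[0,u]`. -/
lemma control [CompleteSpace E] (hE : OrderContinuousNorm E) (u : E) (hu : 0 ≤ u) :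
    ∃ φ : E →L[ℝ] ℝ, (∀ z, 0 ≤ z → 0 ≤ φ z) ∧ ∀ ε > 0, ∃ δ > 0, ∀ x, 0 ≤ x → x ≤ u →
      φ x < δ → ‖x‖ < ε := by
  have h1 := fun n : ℕ => control_eps hE u hu (1 / ((n : ℝ) + 1)) (by positivity)
  choose g hg0 δ hδ hgδ using h1
  set c : ℕ → ℝ := fun n => (1 / 2 : ℝ) ^ n / (1 + ‖g n‖) with hc
  have hc0 : ∀ n, 0 < c n := fun n => by
    have := norm_nonneg (g n)
    positivity
  have hsum : Summable fun n => c n • g n := by
    apply Summable.of_norm_bounded (g := fun n : ℕ => (1 / 2 : ℝ) ^ n)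
      (summable_geometric_of_lt_one (by norm_num) (by norm_num))
    intro n
    rw [norm_smul, Real.norm_of_nonneg (hc0 n).le, hc]
    have h2 := norm_nonneg (g n)
    simp only
    rw [div_mul_eq_mul_div, div_le_iff₀ (by positivity)]
    have h3 : (0 : ℝ) < (1 / 2) ^ n := by positivity
    nlinarith
  set φ : E →L[ℝ] ℝ := ∑' n, c n • g n with hφ
  have hφx : ∀ x, φ x = ∑' n, c n * g n x := by
    intro x
    rw [hφ]
    have h2 := (ContinuousLinearMap.apply ℝ ℝ x).map_tsum hsum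
    simpa using h2
  have hsumx : ∀ x, Summable fun n => c n * g n x := by
    intro x
    have h2 := hsum.mapL (ContinuousLinearMap.apply ℝ ℝ x)
    simpa using h2
  refine ⟨φ, ?_, ?_⟩
  · intro z hz
    rw [hφx]
    exact tsum_nonneg fun n => mul_nonneg (hc0 n).le (hg0 n z hz)
  · intro ε hε
    obtain ⟨k, hk⟩ := exists_nat_one_div_lt hε
    refine ⟨c k * δ k, mul_pos (hc0 k) (hδ k), ?_⟩
    intro x hx0 hxu hx
    have h2 : c k * g k x ≤ φ x := by
      rw [hφx]
      exact (hsumx x).le_tsum k fun j _ => mul_nonneg (hc0 j).le (hg0 j x hx0)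
    have h3 : g k x < δ k := by
      have h4 : c k * g k x < c k * δ k := lt_of_le_of_lt h2 hx
      exact lt_of_mul_lt_mul_left h4 (hc0 k).le
    exact (hgδ k x hx0 hxu h3).trans hk

end

/-- **Main result.** Let `E` be a real Banach lattice with order continuous norm and let `μ` be
a vector capacity on a `σ`-algebra with values in `E₊` (upper continuity is not needed). Then
there is a positive functional `φ ∈ E*₊` such that `φ ∘ μ` is a capacity and `μ ≪ φ ∘ μ`. -/
theorem result {X E : Type*} [MeasurableSpace X] [NormedAddCommGroup E] [NormedSpace ℝ E]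
    [Lattice E] [HasSolidNorm E] [IsOrderedAddMonoid E] [IsOrderedModule ℝ E] [CompleteSpace E]
    (hE : OrderContinuousNorm E) (μ : Set X → E) (hμ : IsVectorCapacity μ) :
    ∃ φ : E →L[ℝ] ℝ, (∀ z, 0 ≤ z → 0 ≤ φ z) ∧ IsCapacity (fun A => φ (μ A)) ∧
      AbsCont μ (fun A => φ (μ A)) := by
  obtain ⟨φ, hφ0, hφ⟩ := control hE (μ Set.univ) (hμ.nonneg _ MeasurableSet.univ)
  refine ⟨φ, hφ0, ⟨fun A hA => hφ0 _ (hμ.nonneg A hA), by simp [hμ.empty], ?_⟩, ?_⟩
  · intro A B hA hB hAB
    have h := hφ0 _ (sub_nonneg.2 (hμ.mono A B hA hB hAB))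
    rw [map_sub] at h
    linarith
  · intro ε hε
    obtain ⟨δ, hδ, h⟩ := hφ ε hε
    exact ⟨δ, hδ, fun A hA hlt => h (μ A) (hμ.nonneg A hA)
      (hμ.mono A _ hA MeasurableSet.univ (Set.subset_univ A)) hlt⟩

end Pool.Agent.Results.MP_e24518_an.ControlFunctional
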